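import Pool.Agent.Helper83.SU.St

/-!
# Project SU (MP_f663dd_lc), module PA
-/

set_option autoImplicit false

namespace Pool.Agent.Helper15.SU

open Pool.Agent.Helper83.SU Pool.Agent.Helper83.CK Cardinal Set

universe u

/-- Module PA. -/
theorem mPA (hNR : StNR.{u}) : StPA.{u} := by
  intro k l K hk hkl hK hall
  have hl : ℵ₀ ≤ l := hk.trans hkl.le
  have hlt : ∀ b : l.ord.ToType, #(K ∪ Iio b : Set l.ord.ToType) < l := by
    intro b
    refine lt_of_le_of_lt (mk_union_le K (Iio b)) ?_
    apply add_lt_of_lt hl
    · rw [hK]; exact hkl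
    · exact mk_Iio_ord_toType b
  have hge : ∀ b : l.ord.ToType, k ≤ #(K ∪ Iio b : Set l.ord.ToType) := by
    intro b
    rw [← hK]
    exact mk_le_mk_of_subset subset_union_left
  have hSm : ∀ b : l.ord.ToType, Sm k K (K ∪ Iio b : Set l.ord.ToType) := fun b =>
    hNR l.ord.ToType k K (K ∪ Iio b) hk subset_union_left hK (hall _ (hge b) (hlt b))
  choose G hG using hSm
  refine ⟨fun i x => G (x 0) i (fun n => x (n + 1)), ?_⟩
  intro A hA hAK b hb
  have hcl : Cl (G b) A := by
    intro i x hx
    have h := hA i (fun n => Nat.casesOn n b x) (by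
      intro n
      cases n with
      | zero => exact hb
      | succ n => exact hx n)
    exact h
  refine lt_of_le_of_lt (mk_le_mk_of_subset ?_) (hG b A hcl hAK)
  exact inter_subset_inter_right A subset_union_right

end Pool.Agent.Helper15.SU
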